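import Mathlib
import Pool.Agent.H378R2.PG.Defs

set_option autoImplicit false

namespace Pool.Agent.H378R2.PG

open Finset Polynomial

namespace D1aux

/-- the resultant of `f(X)` and `f(X + T)` -/
noncomputable def RP (f : ℤ[X]) : ℤ[X] :=
  resultant (f.map (C : ℤ →+* ℤ[X])) (taylor (X : ℤ[X]) (f.map (C : ℤ →+* ℤ[X])))
    f.natDegree f.natDegree

theorem RP_eval (f : ℤ[X]) (t : ℤ) :
    (RP f).eval t = resultant f (taylor t f) f.natDegree f.natDegree := by
  have h1 : (RP f).eval t = (evalRingHom t) (RP f) := rfl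
  rw [h1]
  unfold RP
  rw [← resultant_map_map]
  have h2 : (f.map (C : ℤ →+* ℤ[X])).map (evalRingHom t) = f := by
    rw [Polynomial.map_map]
    have : (evalRingHom t).comp (C : ℤ →+* ℤ[X]) = RingHom.id ℤ := by
      ext x
      simp
    rw [this, Polynomial.map_id]
  have h3 : (taylor (X : ℤ[X]) (f.map (C : ℤ →+* ℤ[X]))).map (evalRingHom t) = taylor t f := by
    rw [taylor_apply, taylor_apply, Polynomial.map_comp, h2]
    simp
  rw [h2, h3]

theorem const_of_period (g : ℚ[X]) (t : ℚ) (ht : t ≠ 0) (h : taylor t g = g) :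
    g.natDegree = 0 := by
  have h1 : ∀ x : ℚ, g.eval (x + t) = g.eval x := by
    intro x
    conv_rhs => rw [← h]
    rw [taylor_eval]
  have h2 : ∀ k : ℕ, g.eval (k * t) = g.eval 0 := by
    intro k
    induction k with
    | zero => simp
    | succ k ih =>
      rw [← ih, ← h1 (k * t)]
      congr 1
      push_cast
      ring
  have h3 : g = C (g.eval 0) := by
    apply eq_of_infinite_eval_eq
    apply Set.Infinite.mono (s := Set.range (fun k : ℕ => (k : ℚ) * t))
    · rintro _ ⟨k, rfl⟩
      simp only [Set.mem_ofPred_eq, eval_C]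
      exact h2 k
    · apply Set.infinite_range_of_injective
      intro a b hab
      simp only at hab
      have := mul_right_cancel₀ ht hab
      exact_mod_cast this
  rw [h3, natDegree_C]

theorem RP_ne (f : ℤ[X]) (hf : Irreducible f) (hd : 1 ≤ f.natDegree) (t : ℤ) (ht : t ≠ 0) :
    resultant f (taylor t f) f.natDegree f.natDegree ≠ 0 := by
  intro h0
  have hprim : f.IsPrimitive := hf.isPrimitive (by omega)
  have hfQ : Irreducible (f.map (Int.castRingHom ℚ)) :=
    (IsPrimitive.Int.irreducible_iff_irreducible_map_cast hprim).1 hf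
  set g := f.map (Int.castRingHom ℚ) with hg
  have hinj : Function.Injective (Int.castRingHom ℚ) := Int.cast_injective
  have hdeg : g.natDegree = f.natDegree := natDegree_map_eq_of_injective hinj f
  have h1 : resultant g (taylor (t : ℚ) g) = 0 := by
    have e1 : (taylor t f).map (Int.castRingHom ℚ) = taylor (t : ℚ) g := by
      rw [taylor_apply, taylor_apply, Polynomial.map_comp, ← hg]
      simp
    have e2 := resultant_map_map f (taylor t f) f.natDegree f.natDegree (Int.castRingHom ℚ)
    rw [h0, map_zero, e1, ← hg] at e2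
    rw [natDegree_taylor, hdeg]
    exact e2
  rw [resultant_eq_zero_iff] at h1
  have h2 : g ∣ taylor (t : ℚ) g := by
    by_contra h
    exact h1.2 (hfQ.coprime_iff_not_dvd.2 h)
  have hgne : g ≠ 0 := hfQ.ne_zero
  have htne : taylor (t : ℚ) g ≠ 0 := by
    intro h
    have := natDegree_taylor g (t : ℚ)
    rw [h, natDegree_zero] at this
    omega
  obtain ⟨q, hq⟩ := h2
  have hq0 : q ≠ 0 := by
    rintro rfl
    rw [mul_zero] at hq
    exact htne hq
  have hqdeg : q.natDegree = 0 := by
    have := congrArg natDegree hq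
    rw [natDegree_taylor, natDegree_mul hgne hq0] at this
    omega
  obtain ⟨c, rfl⟩ := natDegree_eq_zero.1 hqdeg
  have hc : c = 1 := by
    have := congrArg leadingCoeff hq
    rw [leadingCoeff_mul, leadingCoeff_C] at this
    have e3 : (taylor (t : ℚ) g).leadingCoeff = g.leadingCoeff := by
      rw [leadingCoeff_taylor]
    rw [e3] at this
    have hl : g.leadingCoeff ≠ 0 := leadingCoeff_ne_zero.2 hgne
    exact (mul_left_cancel₀ hl (by rw [mul_one]; exact this)).symm
  rw [hc, C_1, mul_one] at hq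
  have := const_of_period g t (by exact_mod_cast ht) hq
  omega

theorem eval_bound (P : ℤ[X]) (t : ℤ) :
    |P.eval t| ≤ ((∑ i ∈ range (P.natDegree + 1), (P.coeff i).natAbs : ℕ) : ℤ) *
      (1 + |t|) ^ P.natDegree := by
  rw [eval_eq_sum_range]
  refine (abs_sum_le_sum_abs _ _).trans ?_
  push_cast
  rw [sum_mul]
  apply sum_le_sum
  intro i hi
  rw [mem_range] at hi
  rw [abs_mul, abs_pow]
  apply mul_le_mul_of_nonneg_left _ (abs_nonneg _)
  calc |t| ^ i ≤ (1 + |t|) ^ i := pow_le_pow_left₀ (abs_nonneg _) (by linarith) i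
    _ ≤ (1 + |t|) ^ P.natDegree :=
        pow_le_pow_right₀ (by linarith [abs_nonneg t]) (by omega)

end D1aux

open D1aux

theorem collision (f : ℤ[X]) (hf : Irreducible f) (hd : 1 ≤ f.natDegree) :
    ∃ A D : ℕ, ∀ t : ℤ, t ≠ 0 → ∃ s : ℤ, s ≠ 0 ∧ |s| ≤ A * (1 + |t|) ^ D ∧
      ∀ r q : ℤ, q ∣ f.eval r → q ∣ f.eval (r + t) → q ∣ s := by
  refine ⟨∑ i ∈ range ((RP f).natDegree + 1), ((RP f).coeff i).natAbs, (RP f).natDegree,
    fun t ht => ⟨(RP f).eval t, ?_, eval_bound (RP f) t, ?_⟩⟩
  · rw [RP_eval]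
    exact RP_ne f hf hd t ht
  · intro r q h1 h2
    rw [RP_eval]
    obtain ⟨a, b, _, _, hab⟩ := exists_mul_add_mul_eq_C_resultant (m := f.natDegree)
      (n := f.natDegree) f (taylor t f) le_rfl (natDegree_taylor f t).le (Or.inl (by omega))
    have h3 := congrArg (eval r) hab
    rw [eval_add, eval_mul, eval_mul, eval_C, taylor_eval] at h3
    rw [← h3]
    exact dvd_add (Dvd.dvd.mul_right h1 _) (Dvd.dvd.mul_right h2 _)

end Pool.Agent.H378R2.PG
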