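import Pool.Agent.H752.PG.Stubs
import Pool.Agent.H620R2.GaugeR.R7
import Pool.Agent.H620R2.Gauge2.Null

/-!
# Task P5: the fixed generator works for all oracles off a small set
-/

namespace Pool.Agent.H752.PG

open Pool.Agent.NPC Pool.Agent.H620R2.Gauge Finset H568R2 MeasureTheory Pool.Agent.H676

private theorem p5_length_gq (m : ℕ) (s : List Bool) (i : ℕ) :
    (gq m s i).length = m + 1 + (1 + (2 * s.length + 1 + i)) := by
  unfold gq
  have h : (pairBits s (List.replicate i true)).length = 2 * s.length + 1 + i := by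
    unfold pairBits
    rw [List.length_append, List.length_flatMap, List.length_cons, List.length_replicate]
    have : (List.map (fun b : Bool => [true, b].length) s).sum = 2 * s.length := by
      simp [mul_comm]
    rw [this]
    ring
  rw [List.length_append, List.length_replicate, List.length_cons, h]
  ring

private theorem p5_gq_inj {m : ℕ} {s s' : List Bool} {i i' : ℕ} (h : gq m s i = gq m s' i') :
    s = s' ∧ i = i' := by
  unfold gq at h
  have h1 := List.append_cancel_left h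
  have h2 : pairBits s (List.replicate i true) = pairBits s' (List.replicate i' true) := by
    simpa using h1
  have h3 := congrArg unpair h2
  rw [unpair_pairBits, unpair_pairBits] at h3
  have h4 := (Prod.mk.injEq _ _ _ _).mp h3
  refine ⟨h4.1, ?_⟩
  have h5 := congrArg List.length h4.2
  simpa using h5

/-- the circuit `C` distinguishes -/
def Dist (c m : ℕ) (A : Oracle) (C : Circuit) : Prop :=
  1 / 8 < |accG C A (gen A) m (dd c m) - accU C A m|

/-- some circuit distinguishes -/
def EvG (c m N : ℕ) (a : Fin N → Bool) : Prop :=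
  ∃ C : Circuit, C.size ≤ m ∧ Dist c m (orc N a) C

private theorem p5_gen (A : Oracle) (m : ℕ) (s : List Bool) :
    gen A (pairBits (List.replicate m true) s) = (List.range m).map fun i => A (gq m s i) := by
  unfold gen
  rw [unpair_pairBits]
  simp

private theorem p5_idx_lt {c m N : ℕ} (hN : 2 ^ (2 * m + 4 + 2 * dd c m) ≤ N)
    (s : List Bool) (hs : s.length = dd c m) (i : ℕ) (hi : i < m) : idx (gq m s i) < N := by
  have h1 := idx_lt (gq m s i)
  rw [p5_length_gq, hs] at h1
  have h2 : 2 ^ (m + 1 + (1 + (2 * dd c m + 1 + i)) + 1) ≤ 2 ^ (2 * m + 4 + 2 * dd c m) :=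
    Nat.pow_le_pow_right (by norm_num) (by omega)
  omega

private theorem p5_idx_short {c m N : ℕ} (hN : 2 ^ (2 * m + 4 + 2 * dd c m) ≤ N)
    (y : List Bool) (hy : y.length ≤ m) : idx y < N := by
  have h1 := idx_lt y
  have h2 : 2 ^ (y.length + 1) ≤ 2 ^ (2 * m + 4 + 2 * dd c m) :=
    Nat.pow_le_pow_right (by norm_num) (by omega)
  omega

open Classical in
private theorem p5_one (h2 : St_short) (h3 : St_chern) {c m N : ℕ}
    (hN : 2 ^ (2 * m + 4 + 2 * dd c m) ≤ N) (C : Circuit) (hC : C.size ≤ m) :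
    Ex unif (fun a : Fin N → Bool => if Dist c m (orc N a) C then (1 : ℝ) else 0) ≤
      2 * Real.exp (-(2 ^ dd c m) / 128) := by
  have hlt : ∀ (s : Fin (dd c m) → Bool) (i : Fin m), idx (gq m (List.ofFn s) i.val) < N :=
    fun s i => p5_idx_lt hN _ (by simp) _ i.2
  let pos : (Fin (dd c m) → Bool) → Fin m → Fin N := fun s i =>
    ⟨idx (gq m (List.ofFn s) i.val), hlt s i⟩
  have hpos : ∀ (a : Fin N → Bool) (s : Fin (dd c m) → Bool),
      gen (orc N a) (pairBits (List.replicate m true) (List.ofFn s)) =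
        List.ofFn (fun i => a (pos s i)) := by
    intro a s
    rw [p5_gen]
    apply List.ext_getElem
    · simp
    · intro i h1 h2
      simp only [List.getElem_ofFn, List.getElem_map, List.getElem_range, pos]
      unfold orc
      rw [dif_pos (p5_idx_lt hN _ (by simp) _ (by simpa using h1))]
  have hinj : Function.Injective (fun q : (Fin (dd c m) → Bool) × Fin m => pos q.1 q.2) := by
    rintro ⟨s, i⟩ ⟨s', i'⟩ h
    have h1 : idx (gq m (List.ofFn s) i.val) = idx (gq m (List.ofFn s') i'.val) := by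
      simpa [pos] using h
    have h2 : gq m (List.ofFn s) i.val = gq m (List.ofFn s') i'.val := by
      rw [← str_idx (gq m (List.ofFn s) i.val), h1, str_idx]
    obtain ⟨h3, h4⟩ := p5_gq_inj h2
    exact Prod.ext (List.ofFn_injective h3) (Fin.ext h4)
  refine h3 (Fin N) inferInstance inferInstance m (dd c m) pos
    (fun a x => C.eval (orc N a) (List.ofFn x)) hinj ?_
    (fun a => Dist c m (orc N a) C) ?_
  · intro a a' haa
    funext x
    refine h2 C m hC (orc N a') (orc N a) (fun y hy => ?_) _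
    unfold orc
    by_cases hyN : idx y < N
    · rw [dif_pos hyN, dif_pos hyN]
      refine haa ⟨idx y, hyN⟩ fun s i h => ?_
      have h2 : idx (gq m (List.ofFn s) i.val) = idx y := by simpa [pos] using h
      have h3 : gq m (List.ofFn s) i.val = y := by
        rw [← str_idx (gq m (List.ofFn s) i.val), h2, str_idx]
      have h4 := congrArg List.length h3
      rw [p5_length_gq] at h4
      omega
    · rw [dif_neg hyN, dif_neg hyN]
  · intro a ha
    have h5 := ha
    unfold Dist accG accU at h5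
    simp only [hpos] at h5
    exact h5

private theorem p5_dist_congr {c m : ℕ} {A : Oracle} {C C' : Circuit}
    (h : ∀ x : List Bool, x.length = m → C'.eval A x = C.eval A x) (hD : Dist c m A C) :
    Dist c m A C' := by
  unfold Dist accG accU at hD ⊢
  have e1 : ∀ s : Fin (dd c m) → Bool,
      C'.eval A (gen A (pairBits (List.replicate m true) (List.ofFn s))) =
        C.eval A (gen A (pairBits (List.replicate m true) (List.ofFn s))) := by
    intro s
    apply h
    rw [p5_gen]
    simp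
  have e2 : ∀ x : Fin m → Bool, C'.eval A (List.ofFn x) = C.eval A (List.ofFn x) := by
    intro x
    apply h
    simp
  simp only [e1, e2]
  exact hD

open Classical in
private theorem p5_bound (h1 : St_count) (h2 : St_short) (h3 : St_chern) {c m N : ℕ}
    (hN : 2 ^ (2 * m + 4 + 2 * dd c m) ≤ N) :
    Ex unif (fun a : Fin N → Bool => if EvG c m N a then (1 : ℝ) else 0) ≤
      2 ^ (40 * (m + 1) ^ 2) * (2 * Real.exp (-(2 ^ dd c m) / 128)) := by
  obtain ⟨K, hK1, hK2, hK3⟩ := h1 m
  have hU : Ex unif (fun a : Fin N → Bool => if EvG c m N a then (1 : ℝ) else 0) ≤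
      ∑ C ∈ K, Ex unif (fun a : Fin N → Bool => if Dist c m (orc N a) C then (1 : ℝ) else 0) := by
    rw [← Ex_sum]
    apply Ex_mono unif_nonneg
    intro a
    by_cases hE : EvG c m N a
    · rw [if_pos hE]
      obtain ⟨C, hC, hD⟩ := hE
      obtain ⟨C', hC', hev⟩ := hK3 C hC
      refine le_trans ?_ (Finset.single_le_sum
        (f := fun C : Circuit => if Dist c m (orc N a) C then (1 : ℝ) else 0)
        (fun x _ => by positivity) hC')
      show (1 : ℝ) ≤ if _ then 1 else 0
      rw [if_pos (p5_dist_congr (hev (orc N a)) hD)]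
    · rw [if_neg hE]
      exact Finset.sum_nonneg fun x _ => by positivity
  refine hU.trans ((Finset.sum_le_sum fun C hC => p5_one h2 h3 hN C (hK1 C hC)).trans ?_)
  rw [Finset.sum_const, nsmul_eq_mul]
  apply mul_le_mul_of_nonneg_right _ (by positivity)
  exact_mod_cast hK2

private theorem p5_poly_le (P : Polynomial ℕ) (n : ℕ) (hn : 1 ≤ n) :
    P.eval n ≤ P.eval 1 * n ^ P.natDegree := by
  rw [Polynomial.eval_eq_sum_range, Polynomial.eval_eq_sum_range, Finset.sum_mul]
  apply Finset.sum_le_sum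
  intro i hi
  rw [one_pow, mul_one]
  apply Nat.mul_le_mul_left
  exact Nat.pow_le_pow_right hn (by have := Finset.mem_range.1 hi; omega)

private theorem p5_choose (T : Polynomial ℕ) : ∃ c n₀ : ℕ, ∀ m ≥ n₀,
    128 * (40 * (m + 1) ^ 2 + 2 + T.eval m) ≤ 2 ^ dd c m := by
  set P : Polynomial ℕ := 128 * (40 * (Polynomial.X + 1) ^ 2 + 2 + T) with hP
  refine ⟨P.natDegree + 1, P.eval 1 + 1, fun m hm => ?_⟩
  have h1 : P.eval m = 128 * (40 * (m + 1) ^ 2 + 2 + T.eval m) := by
    simp [hP]
  rw [← h1]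
  refine (p5_poly_le P m (by omega)).trans ?_
  unfold dd
  rw [mul_comm (P.natDegree + 1), pow_mul]
  have h2 : m ≤ 2 ^ (Nat.log 2 m + 1) := (Nat.lt_pow_succ_log_self (by norm_num) m).le
  refine le_trans ?_ (Nat.pow_le_pow_left h2 _)
  rw [pow_succ, mul_comm]
  exact Nat.mul_le_mul_left _ (by omega)

private theorem p5_dd_small (c : ℕ) : ∀ᶠ m : ℕ in Filter.atTop, 2 * m + 4 + 2 * dd c m ≤ 6 * m + 6 := by
  -- `dd c m ≤ m + 1`
  have h1 := tendsto_pow_const_div_const_pow_of_one_lt (2 * c + 2) (r := (2 : ℝ)) (by norm_num)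
  have h := h1.eventually (eventually_lt_nhds (show (0 : ℝ) < 1 by norm_num))
  have h3 : Filter.Tendsto (fun m : ℕ => Nat.log 2 m) Filter.atTop Filter.atTop := by
    refine Filter.tendsto_atTop.2 fun b => ?_
    filter_upwards [Filter.eventually_ge_atTop (2 ^ b)] with m hm
    exact (Nat.le_log_iff_pow_le (by norm_num) (by have := Nat.two_pow_pos b; omega)).2 hm
  have h4 := h3.eventually h
  filter_upwards [h4, Filter.eventually_ge_atTop (2 : ℕ), h3.eventually (Filter.eventually_ge_atTop (c + 1))]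
    with m hm hm1 hm2
  have hlog : (Nat.log 2 m : ℝ) ^ (2 * c + 2) < 2 ^ Nat.log 2 m := by
    rwa [div_lt_one (by positivity)] at hm
  have hlog' : (Nat.log 2 m) ^ (2 * c + 2) < 2 ^ Nat.log 2 m := by exact_mod_cast hlog
  have h5 : 2 ^ Nat.log 2 m ≤ m := Nat.pow_log_le_self 2 (by omega)
  have h6 : (Nat.log 2 m) ^ 2 ≤ (Nat.log 2 m) ^ (2 * c + 2) :=
    Nat.pow_le_pow_right (by omega) (by omega)
  have h7 : dd c m ≤ m := by
    unfold dd
    have h8 : c * (Nat.log 2 m + 1) ≤ (Nat.log 2 m) ^ 2 := by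
      nlinarith
    omega
  omega

private theorem p5_exp_le (k : ℕ) (x : ℝ) (hx : (128 : ℝ) * k ≤ x) :
    Real.exp (-x / 128) ≤ (1 / 2) ^ k := by
  have h1 : -x / 128 ≤ -(k : ℝ) := by
    rw [div_le_iff₀ (by norm_num)]
    linarith
  refine (Real.exp_le_exp.2 h1).trans ?_
  have h2 : -(k : ℝ) = k * (-1 : ℝ) := by ring
  rw [h2, Real.exp_nat_mul]
  apply pow_le_pow_left₀ (Real.exp_pos _).le
  rw [Real.exp_neg, one_div]
  apply inv_anti₀ (by norm_num)
  have := Real.add_one_le_exp (1 : ℝ)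
  linarith

private theorem p5_total {c m : ℕ} (T : Polynomial ℕ)
    (h : 128 * (40 * (m + 1) ^ 2 + 2 + T.eval m) ≤ 2 ^ dd c m) :
    (2 : ℝ) ^ (40 * (m + 1) ^ 2) * (2 * Real.exp (-(2 ^ dd c m) / 128)) ≤
      2 ^ m * (1 / 2) ^ T.eval m := by
  have h1 : ((128 * (40 * (m + 1) ^ 2 + 2 + T.eval m) : ℕ) : ℝ) ≤ ((2 ^ dd c m : ℕ) : ℝ) := by
    exact_mod_cast h
  have h2 := p5_exp_le (40 * (m + 1) ^ 2 + 2 + T.eval m) ((2 : ℝ) ^ dd c m) (by
    push_cast at h1 ⊢
    linarith)
  calc (2 : ℝ) ^ (40 * (m + 1) ^ 2) * (2 * Real.exp (-(2 ^ dd c m) / 128))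
      ≤ (2 : ℝ) ^ (40 * (m + 1) ^ 2) * (2 * (1 / 2) ^ (40 * (m + 1) ^ 2 + 2 + T.eval m)) := by
        gcongr
    _ = ((2 : ℝ) ^ (40 * (m + 1) ^ 2) * (1 / 2) ^ (40 * (m + 1) ^ 2)) * (1 / 2) *
          (1 / 2) ^ T.eval m := by
        rw [pow_add, pow_add]
        ring
    _ = (1 / 2) * (1 / 2) ^ T.eval m := by
        rw [← mul_pow]
        norm_num
    _ ≤ 2 ^ m * (1 / 2) ^ T.eval m := by
        apply mul_le_mul_of_nonneg_right _ (by positivity)
        have : (1 : ℝ) ≤ 2 ^ m := one_le_pow₀ (by norm_num)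
        linarith

private theorem p5_transfer (h2 : St_short) {c m N : ℕ} (hN : 2 ^ (2 * m + 4 + 2 * dd c m) ≤ N)
    {A : Oracle} {C : Circuit} (hC : C.size ≤ m) (hD : Dist c m A C) :
    Dist c m (orc N (pre N A)) C := by
  have hev : ∀ x, C.eval (orc N (pre N A)) x = C.eval A x :=
    fun x => h2 C m hC A (orc N (pre N A)) (fun y hy => orc_pre (p5_idx_short hN y hy)) x
  have hgen : ∀ s : Fin (dd c m) → Bool,
      gen (orc N (pre N A)) (pairBits (List.replicate m true) (List.ofFn s)) =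
        gen A (pairBits (List.replicate m true) (List.ofFn s)) := by
    intro s
    rw [p5_gen, p5_gen]
    apply List.map_congr_left
    intro i hi
    exact orc_pre (p5_idx_lt hN _ (by simp) _ (List.mem_range.1 hi))
  unfold Dist accG accU at hD ⊢
  simp only [hev, hgen]
  exact hD

theorem t_nullG (h1 : St_count) (h2 : St_short) (h3 : St_chern) (h4 : St_gen) : St_nullG := by
  intro f hf
  obtain ⟨C, hC⟩ := hf
  obtain ⟨T, n₀, hT⟩ := asymR C (6 * Polynomial.X + 6) 0 (by intro n; simp; omega) f hC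
  have hev : ∀ n, (6 * Polynomial.X + 6 : Polynomial ℕ).eval n = 6 * n + 6 := by intro n; simp
  simp only [hev] at hT
  obtain ⟨c, n₂, hc⟩ := p5_choose T
  obtain ⟨n₃, hn₃⟩ := Filter.eventually_atTop.1 (h4 (fun _ => false) c).2.2.2
  obtain ⟨n₄, hn₄⟩ := Filter.eventually_atTop.1 (p5_dd_small c)
  intro δ hδ
  -- the start
  obtain ⟨k, hk⟩ := exists_pow_lt_of_lt_one (show (0 : ℝ) < δ / 2 by positivity)
    (show (1 / 2 : ℝ) < 1 by norm_num)
  set n₁ := n₀ + n₂ + n₃ + n₄ + k with hn₁
  have hn₁' : (1 / 2 : ℝ) ^ n₁ < δ / 2 :=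
    lt_of_le_of_lt (pow_le_pow_of_le_one (by norm_num) (by norm_num) (by omega)) hk
  choose! hT1 N hN1 hN2 using hT
  have hNd : ∀ n ≥ n₁, 2 ^ (2 * n + 4 + 2 * dd c n) ≤ N n := fun n hn =>
    (Nat.pow_le_pow_right (by norm_num) (hn₄ n (by omega))).trans (hN1 n (by omega))
  have hcov : ∀ n : ℕ, ∃ S : Set (List Bool), n₁ ≤ n →
      (∀ A ∈ {A : Oracle | EvG c n (N n) (pre (N n) A)}, ∃ σ ∈ S, Extends A σ) ∧
      ∑' σ : S, ENNReal.ofReal (2 ^ (f σ.1.length - σ.1.length)) ≤
        ENNReal.ofReal ((1 / 2) ^ n) := by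
    intro n
    by_cases hn : n₁ ≤ n
    · classical
      obtain ⟨S, hS, hs⟩ := cover_of_event (EvG c n (N n))
        {A : Oracle | EvG c n (N n) (pre (N n) A)} (fun A hA => hA) f ((1 / 2) ^ n)
        ((mul_le_mul_of_nonneg_right ((p5_bound h1 h2 h3 (hNd n hn)).trans
          (p5_total T (hc n (by omega)))) (by positivity)).trans (hN2 n (by omega)))
      exact ⟨S, fun _ => ⟨hS, hs⟩⟩
    · exact ⟨∅, fun h => absurd h hn⟩
  choose S hS using hcov
  refine ⟨⋃ k : ℕ, S (n₁ + k), ?_, ?_⟩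
  · intro A hA
    have hex : ∃ n ≥ n₁, EvG c n (N n) (pre (N n) A) := by
      by_contra hcon
      push Not at hcon
      apply hA
      refine ⟨dd c, gen A, 2 * c, (h4 A c).1, (h4 A c).2.1, fun m s _ => (h4 A c).2.2.1 m s, ?_⟩
      filter_upwards [Filter.eventually_ge_atTop n₁] with m hm
      have h5 := hn₃ m (by omega)
      refine ⟨h5.1, h5.2, fun C hC => ?_⟩
      by_contra hlt
      exact hcon m hm ⟨C, hC, p5_transfer h2 (hNd m hm) hC (not_le.1 hlt)⟩
    obtain ⟨n, hn, hE⟩ := hex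
    obtain ⟨σ, hσ, hE'⟩ := (hS n hn).1 A hE
    refine ⟨σ, Set.mem_iUnion.2 ⟨n - n₁, ?_⟩, hE'⟩
    rw [Nat.add_sub_cancel' hn]
    exact hσ
  · refine (ENNReal.tsum_iUnion_le_tsum (fun σ : List Bool =>
      ENNReal.ofReal (2 ^ (f σ.length - σ.length))) (fun k => S (n₁ + k))).trans ?_
    refine (ENNReal.tsum_le_tsum fun k => (hS (n₁ + k) (Nat.le_add_right _ _)).2).trans ?_
    have hsum : Summable (fun k : ℕ => (1 / 2 : ℝ) ^ (n₁ + k)) := by
      simp only [pow_add]
      exact summable_geometric_two.mul_left _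
    rw [← ENNReal.ofReal_tsum_of_nonneg (fun k => by positivity) hsum]
    apply ENNReal.ofReal_le_ofReal
    simp only [pow_add]
    rw [tsum_mul_left, tsum_geometric_two]
    linarith

end Pool.Agent.H752.PG
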